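import Mathlib
import Pool.Agent.X285.Hopf.Ord

set_option autoImplicit false

namespace Pool.Agent.Results.MP_46c6cb_nt.MaximalAssociatedOrder

open Pool.Agent.X285.Hopf

/-- Let `L/K` be a Galois extension of `p`-adic fields with group `G` whose degree is prime to `p`,
and let `O` be the ring of integers of `K`. Then the associated order of the ring of integers of
`L` in the Hopf algebra `H_λ` of the canonical nonclassical Hopf-Galois structure is a maximal
`O`-order. -/
theorem result (p : ℕ) [Fact p.Prime] (O K L G : Type*) [Field K] [Field L]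
    [Algebra ℚ_[p] K] [FiniteDimensional ℚ_[p] K] [Algebra ℤ_[p] K] [IsScalarTower ℤ_[p] ℚ_[p] K]
    [CommRing O] [Algebra ℤ_[p] O] [Algebra O K] [IsScalarTower ℤ_[p] O K]
    [IsIntegralClosure O ℤ_[p] K]
    [Algebra K L] [Group G] [Finite G] [MulSemiringAction G L] [SMulCommClass G K L]
    [IsGaloisGroup G K L] [Algebra O L] [IsScalarTower O K L]
    [Algebra ℤ_[p] L] [IsScalarTower ℤ_[p] K L]
    (hp : ¬ p ∣ Module.finrank K L) :
    (∀ x : L, IsIntegral O x ↔ IsIntegral ℤ_[p] x) ∧
    IsMaximalOrder K (assocOrder O K L G) := by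
  have hst : IsScalarTower ℤ_[p] O L := by
    refine IsScalarTower.of_algebraMap_eq fun x => ?_
    rw [IsScalarTower.algebraMap_apply ℤ_[p] K L, IsScalarTower.algebraMap_apply O K L,
      ← IsScalarTower.algebraMap_apply ℤ_[p] O K]
  have hint : Algebra.IsIntegral ℤ_[p] O := IsIntegralClosure.isIntegral_algebra ℤ_[p] K
  refine ⟨fun x => ⟨fun hx => ?_, fun hx => hx.tower_top⟩, ?_⟩
  · exact isIntegral_trans x hx
  · have hdom : IsDomain O := by
      have := IsIntegralClosure.algebraMap_injective O ℤ_[p] K
      exact this.isDomain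
    have hD : IsDedekindDomain O := IsIntegralClosure.isDedekindDomain ℤ_[p] ℚ_[p] K O
    have hF : IsFractionRing O K :=
      IsIntegralClosure.isFractionRing_of_finite_extension ℤ_[p] ℚ_[p] K O
    apply assocOrder_isMaximalOrder
    have h1 : IsUnit ((Module.finrank K L : ℕ) : ℤ_[p]) := by
      rw [PadicInt.isUnit_iff]
      apply le_antisymm (PadicInt.norm_le_one _)
      rw [← not_lt]
      intro h
      have h2 : ‖(((Module.finrank K L : ℕ) : ℤ) : ℤ_[p])‖ < 1 := by exact_mod_cast h
      rw [PadicInt.norm_int_lt_one_iff_dvd] at h2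
      exact hp (by exact_mod_cast h2)
    have h2 := h1.map (algebraMap ℤ_[p] O)
    rwa [map_natCast] at h2

end Pool.Agent.Results.MP_46c6cb_nt.MaximalAssociatedOrder
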